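import Pool.Agent.helper19.MX.SpecA

/-!
Row mx:PTS of the project mx (MP_a875de_ag), by helper9.
-/

namespace MX

open Pool.Agent.helper53.AU AN
open scoped Classical Topology
open Finset (range powerset Icc)

theorem PTS_fib (K : Type) [Field K] [Fintype K] [CharP K 2] (z : K) :
    (Nat.card {t : K // t ^ 2 + t = z} : ℤ) = 1 + ps z := by
  unfold ps
  by_cases h : ∃ y : K, y ^ 2 + y = z
  · rw [if_pos h]
    obtain ⟨y, hy⟩ := h
    have h2 : (2 : K) = 0 := CharTwo.two_eq_zero
    have hset : {t : K | t ^ 2 + t = z} = {y, y + 1} := by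
      ext t
      simp only [Set.mem_setOf_eq, Set.mem_insert_iff, Set.mem_singleton_iff]
      constructor
      · intro ht
        have h0 : (t - y) * (t - (y + 1)) = 0 := by
          linear_combination ht - hy + (y ^ 2 - t * y + y - t) * h2
        rcases mul_eq_zero.1 h0 with h1 | h1
        · exact Or.inl (sub_eq_zero.1 h1)
        · exact Or.inr (sub_eq_zero.1 h1)
      · rintro (rfl | rfl)
        · exact hy
        · linear_combination hy + (y + 1) * h2
    have hc : Nat.card {t : K // t ^ 2 + t = z} = 2 := by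
      have h1 : Nat.card {t : K // t ^ 2 + t = z} = ({t : K | t ^ 2 + t = z}).ncard := rfl
      rw [h1, hset]
      refine Set.ncard_pair ?_
      intro hyy
      have : (1 : K) = 0 := by linear_combination -hyy
      exact one_ne_zero this
    rw [hc]
    norm_num
  · rw [if_neg h]
    have hc : Nat.card {t : K // t ^ 2 + t = z} = 0 := by
      have : IsEmpty {t : K // t ^ 2 + t = z} := ⟨fun t => h ⟨t.1, t.2⟩⟩
      exact Nat.card_of_isEmpty
    rw [hc]
    norm_num

theorem PTS (hPS1 : PS1_stmt) (hPSS : PSS_stmt) : PTS_stmt := by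
  intro K _ _ _ r f
  have e1 : {p : K × (Fin r → K) // ∀ j : Fin r, p.2 j ^ 2 + p.2 j = f j p.1} ≃
      (Σ x : K, {y : Fin r → K // ∀ j : Fin r, y j ^ 2 + y j = f j x}) :=
    { toFun := fun p => ⟨p.1.1, ⟨p.1.2, p.2⟩⟩
      invFun := fun q => ⟨(q.1, q.2.1), q.2.2⟩
      left_inv := fun p => rfl
      right_inv := fun q => rfl }
  have e2 : ∀ x : K, Nat.card {y : Fin r → K // ∀ j : Fin r, y j ^ 2 + y j = f j x} =
      ∏ j : Fin r, Nat.card {t : K // t ^ 2 + t = f j x} := by
    intro x
    rw [← Nat.card_pi]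
    exact Nat.card_congr (Equiv.subtypePiEquivPi (p := fun (j : Fin r) (t : K) => t ^ 2 + t = f j x))
  rw [Nat.card_congr e1, Nat.card_sigma]
  push_cast
  rw [Finset.sum_comm]
  refine Finset.sum_congr rfl fun x _ => ?_
  rw [e2 x]
  push_cast
  have e3 : ∏ j : Fin r, (Nat.card {t : K // t ^ 2 + t = f j x} : ℤ) =
      ∏ j ∈ range r, (1 + ps (f j x)) := by
    rw [Finset.prod_range]
    exact Finset.prod_congr rfl fun j _ => PTS_fib K _
  rw [e3, Finset.prod_one_add]
  exact Finset.sum_congr rfl fun T _ => (hPSS K ℕ T (fun j => f j x)).symm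

end MX
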